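import Mathlib
import Pool.Agent.Common_LLL.Basic

/-!
# Halving by the local lemma
-/

namespace Pool.Agent.H81LAX

open Finset Classical

variable {γ J : Type*}

/-- signed sum -/
noncomputable def sg (b : Bool) : ℝ := if b then 1 / 2 else -(1 / 2)

theorem sum_sg (N : Finset γ) (w : γ → Bool) :
    ∑ z ∈ N, sg (w z) = ((N.filter (fun z => w z = true)).card : ℝ) - (N.card : ℝ) / 2 := by
  have h1 : ∀ z ∈ N, sg (w z) = (if w z = true then (1 : ℝ) else 0) - 1 / 2 := by
    intro z _
    unfold sg
    by_cases h : w z = true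
    · simp [h]; norm_num
    · simp [h]
  rw [Finset.sum_congr rfl h1, Finset.sum_sub_distrib]
  congr 1
  · rw [Finset.sum_boole]
  · simp only [sum_const, nsmul_eq_mul]
    ring

theorem exp_moment [Fintype γ] (N : Finset γ) (s : ℝ) :
    ∑ w : γ → Bool, Real.exp (s * ∑ z ∈ N, sg (w z)) ≤
      (Fintype.card (γ → Bool) : ℝ) * Real.exp (s ^ 2 * N.card / 8) := by
  have h1 : ∀ w : γ → Bool, Real.exp (s * ∑ z ∈ N, sg (w z)) =
      ∏ z, (if z ∈ N then Real.exp (s * sg (w z)) else 1) := by
    intro w
    rw [Finset.mul_sum, Real.exp_sum]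
    rw [Finset.prod_ite]
    simp
  have h2 : ∑ w : γ → Bool, Real.exp (s * ∑ z ∈ N, sg (w z)) =
      ∏ z : γ, ∑ b : Bool, (if z ∈ N then Real.exp (s * sg b) else 1) := by
    rw [Finset.prod_univ_sum]
    rw [Fintype.piFinset_univ]
    exact Finset.sum_congr rfl (fun w _ => h1 w)
  have h3 : ∀ z : γ, ∑ b : Bool, (if z ∈ N then Real.exp (s * sg b) else 1) ≤
      2 * (if z ∈ N then Real.exp (s ^ 2 / 8) else 1) := by
    intro z
    by_cases hz : z ∈ N
    · simp only [hz, if_true, Fintype.sum_bool, sg]
      have := Real.cosh_le_exp_half_sq (s / 2)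
      rw [Real.cosh_eq] at this
      have e1 : s * (1 / 2) = s / 2 := by ring
      have e2 : s * (-(1 / 2)) = -(s / 2) := by ring
      have e3 : (s / 2) ^ 2 / 2 = s ^ 2 / 8 := by ring
      rw [e3] at this
      simp only [Bool.false_eq_true, if_false]
      rw [e1, e2]
      linarith
    · simp [hz]
  rw [h2]
  calc ∏ z : γ, ∑ b : Bool, (if z ∈ N then Real.exp (s * sg b) else 1)
      ≤ ∏ z : γ, 2 * (if z ∈ N then Real.exp (s ^ 2 / 8) else 1) := by
        apply Finset.prod_le_prod
        · intro z _
          apply Finset.sum_nonneg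
          intro b _
          split_ifs <;> positivity
        · intro z _; exact h3 z
    _ = (Fintype.card (γ → Bool) : ℝ) * Real.exp (s ^ 2 * N.card / 8) := by
        rw [Finset.prod_mul_distrib]
        congr 1
        · simp
        · rw [Finset.prod_ite_mem, Finset.univ_inter, prod_const, ← Real.exp_nat_mul]
          congr 1
          ring

/-- upper tail, counting form -/
theorem tail [Fintype γ] (N : Finset γ) (s t : ℝ) (hs : 0 ≤ s) :
    ((Finset.univ.filter (fun w : γ → Bool => t < ∑ z ∈ N, sg (w z))).card : ℝ) ≤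
      (Fintype.card (γ → Bool) : ℝ) * Real.exp (s ^ 2 * N.card / 8 - s * t) := by
  have h1 : ((Finset.univ.filter (fun w : γ → Bool => t < ∑ z ∈ N, sg (w z))).card : ℝ) *
      Real.exp (s * t) ≤ ∑ w : γ → Bool, Real.exp (s * ∑ z ∈ N, sg (w z)) := by
    calc ((Finset.univ.filter (fun w : γ → Bool => t < ∑ z ∈ N, sg (w z))).card : ℝ) *
          Real.exp (s * t)
        = ∑ w ∈ Finset.univ.filter (fun w : γ → Bool => t < ∑ z ∈ N, sg (w z)),
            Real.exp (s * t) := by rw [sum_const, nsmul_eq_mul]
      _ ≤ ∑ w ∈ Finset.univ.filter (fun w : γ → Bool => t < ∑ z ∈ N, sg (w z)),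
            Real.exp (s * ∑ z ∈ N, sg (w z)) := by
          apply Finset.sum_le_sum
          intro w hw
          simp only [mem_filter] at hw
          apply Real.exp_le_exp.2
          exact mul_le_mul_of_nonneg_left hw.2.le hs
      _ ≤ ∑ w : γ → Bool, Real.exp (s * ∑ z ∈ N, sg (w z)) := by
          apply Finset.sum_le_sum_of_subset_of_nonneg (Finset.filter_subset _ _)
          intro w _ _; positivity
  have h2 := exp_moment N s
  have h3 : 0 < Real.exp (s * t) := Real.exp_pos _
  rw [Real.exp_sub, mul_div_assoc', le_div_iff₀ h3]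
  linarith

theorem tail2 [Fintype γ] (N : Finset γ) (s t : ℝ) (hs : 0 ≤ s) :
    ((Finset.univ.filter (fun w : γ → Bool => t < |∑ z ∈ N, sg (w z)|)).card : ℝ) ≤
      2 * (Fintype.card (γ → Bool) : ℝ) * Real.exp (s ^ 2 * N.card / 8 - s * t) := by
  have h1 := tail N s t hs
  have h2 : ((Finset.univ.filter (fun w : γ → Bool => t < -∑ z ∈ N, sg (w z))).card : ℝ) ≤
      (Fintype.card (γ → Bool) : ℝ) * Real.exp (s ^ 2 * N.card / 8 - s * t) := by
    refine le_trans (le_of_eq ?_) h1
    congr 1
    refine Finset.card_bij (fun w _ z => !(w z)) ?_ ?_ ?_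
    · intro w hw
      simp only [mem_filter, mem_univ, true_and] at hw ⊢
      have : ∑ z ∈ N, sg (!(w z)) = -∑ z ∈ N, sg (w z) := by
        rw [← Finset.sum_neg_distrib]
        apply Finset.sum_congr rfl
        intro z _
        unfold sg
        cases w z <;> simp
      rw [this]; exact hw
    · intro w _ w' _ h
      funext z
      have := congrFun h z
      simpa using this
    · intro w hw
      refine ⟨fun z => !(w z), ?_, ?_⟩
      · simp only [mem_filter, mem_univ, true_and] at hw ⊢
        have : ∑ z ∈ N, sg (!(w z)) = -∑ z ∈ N, sg (w z) := by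
          rw [← Finset.sum_neg_distrib]
          apply Finset.sum_congr rfl
          intro z _
          unfold sg
          cases w z <;> simp
        rw [this]; linarith
      · funext z; simp
  have h3 : (Finset.univ.filter (fun w : γ → Bool => t < |∑ z ∈ N, sg (w z)|)) ⊆
      (Finset.univ.filter (fun w : γ → Bool => t < ∑ z ∈ N, sg (w z))) ∪
      (Finset.univ.filter (fun w : γ → Bool => t < -∑ z ∈ N, sg (w z))) := by
    intro w hw
    simp only [mem_filter, mem_univ, true_and, mem_union] at hw ⊢
    rcases lt_abs.1 hw with h | h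
    · exact Or.inl h
    · exact Or.inr h
  have h4 := Finset.card_le_card h3
  have h5 := le_trans h4 (Finset.card_union_le _ _)
  have h6 : ((Finset.univ.filter (fun w : γ → Bool => t < |∑ z ∈ N, sg (w z)|)).card : ℝ) ≤
      (Finset.univ.filter (fun w : γ → Bool => t < ∑ z ∈ N, sg (w z))).card +
      (Finset.univ.filter (fun w : γ → Bool => t < -∑ z ∈ N, sg (w z))).card := by
    exact_mod_cast h5
  linarith

/-- **HL**, halving. -/
theorem hl [Fintype γ] [Fintype J] (N : J → Finset γ) (M : ℕ) (hM : 1 ≤ M) (lam : ℝ)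
    (hlam : 0 ≤ lam)
    (h1 : ∀ j, (N j).card ≤ M) (h2 : ∀ z, (univ.filter (fun j => z ∈ N j)).card ≤ M)
    (h3 : 8 * (M : ℝ) ^ 2 ≤ Real.exp (2 * lam)) :
    ∃ S : Finset γ, ∀ j, |((N j ∩ S).card : ℝ) - (N j).card / 2| ≤ Real.sqrt (lam * (N j).card) := by
  have hMR : (1 : ℝ) ≤ M := by exact_mod_cast hM
  have hM2 : (1 : ℝ) ≤ (M : ℝ) ^ 2 := by nlinarith
  let A : J → Finset (γ → Bool) := fun j => univ.filter (fun w : γ → Bool =>
    Real.sqrt (lam * (N j).card) < |∑ z ∈ N j, sg (w z)|)
  set x : ℝ := 1 / (2 * (M : ℝ) ^ 2) with hx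
  have hx0 : 0 ≤ x := by positivity
  have hx1 : x ≤ 1 / 2 := by
    rw [hx, div_le_div_iff₀ (by positivity) (by norm_num)]
    linarith
  have hcard : ∀ j, ((A j).card : ℝ) ≤ 2 * Fintype.card (γ → Bool) * Real.exp (-(2 * lam)) := by
    intro j
    by_cases hn : (N j).card = 0
    · have : A j = ∅ := by
        ext w
        simp only [A, mem_filter, mem_univ, true_and, notMem_empty, iff_false, not_lt]
        have : N j = ∅ := Finset.card_eq_zero.1 hn
        rw [this]; simp
      rw [this]; simp; positivity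
    · have hn' : (0 : ℝ) < (N j).card := by
        have : 0 < (N j).card := Nat.pos_of_ne_zero hn
        exact_mod_cast this
      have h4 := tail2 (N j) (4 * Real.sqrt (lam / (N j).card)) (Real.sqrt (lam * (N j).card))
        (by positivity)
      refine le_trans h4 ?_
      apply mul_le_mul_of_nonneg_left _ (by positivity)
      apply Real.exp_le_exp.2
      have e1 : Real.sqrt (lam / (N j).card) * Real.sqrt (lam * (N j).card) = lam := by
        rw [← Real.sqrt_mul (by positivity)]
        have : lam / (N j).card * (lam * (N j).card) = lam ^ 2 := by field_simp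
        rw [this, Real.sqrt_sq hlam]
      have e2 : Real.sqrt (lam / (N j).card) ^ 2 = lam / (N j).card := Real.sq_sqrt (by positivity)
      have e3 : (4 * Real.sqrt (lam / (N j).card)) ^ 2 * (N j).card / 8 = 2 * lam := by
        rw [mul_pow, e2]; field_simp; ring
      have e4 : 4 * Real.sqrt (lam / (N j).card) * Real.sqrt (lam * (N j).card) = 4 * lam := by
        rw [mul_assoc, e1]
      rw [e3, e4]; linarith
  obtain ⟨w, hw⟩ := Pool.Agent.Common_LLL.lll_finite (V := γ) (α := Bool) A N
    (by
      intro j w w' hww hw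
      simp only [A, mem_filter, mem_univ, true_and] at hw ⊢
      have : ∑ z ∈ N j, sg (w' z) = ∑ z ∈ N j, sg (w z) :=
        Finset.sum_congr rfl (fun z hz => by rw [hww z hz])
      rw [this]; exact hw)
    (fun _ => x) (fun _ => hx0) (fun _ => by linarith) (by
      intro j
      refine le_trans (hcard j) ?_
      set nb := univ.filter (fun i => i ≠ j ∧ ¬ Disjoint (N i) (N j)) with hnb
      have hnbc : nb.card ≤ M ^ 2 := by
        have hsub : nb ⊆ (N j).biUnion (fun z => univ.filter (fun i => z ∈ N i)) := by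
          intro i hi
          simp only [hnb, mem_filter, mem_univ, true_and] at hi
          obtain ⟨_, hi⟩ := hi
          rw [Finset.not_disjoint_iff] at hi
          obtain ⟨z, hz1, hz2⟩ := hi
          simp only [mem_biUnion, mem_filter, mem_univ, true_and]
          exact ⟨z, hz2, hz1⟩
        calc nb.card ≤ _ := Finset.card_le_card hsub
          _ ≤ ∑ z ∈ N j, (univ.filter (fun i => z ∈ N i)).card := Finset.card_biUnion_le
          _ ≤ ∑ z ∈ N j, M := Finset.sum_le_sum (fun z _ => h2 z)
          _ = (N j).card * M := by simp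
          _ ≤ M * M := Nat.mul_le_mul_right _ (h1 j)
          _ = M ^ 2 := by ring
      have hprod : (1 : ℝ) / 2 ≤ ∏ i ∈ nb, (1 - x) := by
        rw [prod_const]
        have hb := one_add_mul_le_pow (a := -x) (by linarith) nb.card
        have h5 : (nb.card : ℝ) * x ≤ 1 / 2 := by
          have h6 : (nb.card : ℝ) ≤ (M : ℝ) ^ 2 := by exact_mod_cast hnbc
          calc (nb.card : ℝ) * x ≤ (M : ℝ) ^ 2 * x := mul_le_mul_of_nonneg_right h6 hx0
            _ = 1 / 2 := by rw [hx]; field_simp
        have e : (1 : ℝ) - x = 1 + -x := by ring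
        rw [e]
        refine le_trans ?_ hb
        linarith
      have hexp : Real.exp (-(2 * lam)) ≤ 1 / (8 * (M : ℝ) ^ 2) := by
        rw [Real.exp_neg, inv_eq_one_div]
        exact one_div_le_one_div_of_le (by positivity) h3
      have hC : (0 : ℝ) ≤ Fintype.card (γ → Bool) := Nat.cast_nonneg _
      calc 2 * (Fintype.card (γ → Bool) : ℝ) * Real.exp (-(2 * lam))
          ≤ 2 * (Fintype.card (γ → Bool) : ℝ) * (1 / (8 * (M : ℝ) ^ 2)) :=
            mul_le_mul_of_nonneg_left hexp (by positivity)
        _ = x * (1 / 2) * (Fintype.card (γ → Bool) : ℝ) := by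
            rw [hx]; field_simp; norm_num
        _ ≤ x * (∏ i ∈ nb, (1 - x)) * (Fintype.card (γ → Bool) : ℝ) := by
            apply mul_le_mul_of_nonneg_right _ hC
            exact mul_le_mul_of_nonneg_left hprod hx0)
  refine ⟨univ.filter (fun z => w z = true), fun j => ?_⟩
  have h4 := hw j
  simp only [A, mem_filter, mem_univ, true_and, not_lt] at h4
  rw [sum_sg] at h4
  have h5 : N j ∩ univ.filter (fun z => w z = true) = (N j).filter (fun z => w z = true) := by
    ext z; simp
  rw [h5]; exact h4

end Pool.Agent.H81LAX
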