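import Pool.Agent.Helper96_LAX.Stmts
import Pool.Agent.Helper81_LAX.HL

/-!
# LAX module HL
-/

set_option autoImplicit false

namespace Pool.Agent.LAX.H81

open Pool.Agent.LAX Pool.Agent.H81LAX

/-- MODULE HL (no hypotheses) -/
theorem hl : HLStmt := by
  classical
  intro Z J _ _ N m lam hlam h3 h1 h2
  let _ := Fintype.ofFinite Z
  let _ := Fintype.ofFinite J
  by_cases hm : 1 ≤ m
  · obtain ⟨S, hS⟩ := Pool.Agent.H81LAX.hl (fun j => (N j).toFinset) m hm lam hlam.le
      (fun j => by
        have := h1 j
        rwa [Set.ncard_eq_toFinset_card'] at this)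
      (fun z => by
        have := h2 z
        rw [Set.ncard_eq_toFinset_card'] at this
        refine le_trans (le_of_eq ?_) this
        congr 1
        ext j; simp) h3
    refine ⟨(S : Set Z), fun j => ?_⟩
    have e1 : (N j).ncard = (N j).toFinset.card := Set.ncard_eq_toFinset_card' _
    have e2 : (N j ∩ (S : Set Z)).ncard = ((N j).toFinset ∩ S).card := by
      rw [← Set.ncard_coe_finset]
      congr 1
      ext z; simp
    rw [e1, e2]
    exact hS j
  · have hm0 : m = 0 := by omega
    refine ⟨∅, fun j => ?_⟩
    have h4 : (N j).ncard = 0 := by have := h1 j; omega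
    rw [h4, Set.inter_empty, Set.ncard_empty]
    simp

end Pool.Agent.LAX.H81
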