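import Pool.Agent.Helper96_LAX.Stmts
import Pool.Agent.Helper75_Viz.Regularise

/-!
# LAX module REC
-/

set_option autoImplicit false

namespace Pool.Agent.LAX.H81

open Pool.Agent.LAX Pool.Agent.Helper14_LA SimpleGraph

theorem left_le {W : Type} [Finite W] (A : Set W) (B : ℕ → Set W) (q : ℕ)
    (hB : ∀ c < q, B c ⊆ A) (hd : ∀ c < q, ∀ d < q, c ≠ d → Disjoint (B c) (B d)) :
    {w | w ∈ A ∧ ∀ c < q, w ∉ B c}.ncard + {c | c < q ∧ (B c).Nonempty}.ncard ≤ A.ncard := by
  classical
  have hfin : {c | c < q ∧ (B c).Nonempty}.Finite :=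
    (Set.finite_lt_nat q).subset (fun c hc => hc.1)
  -- a choice of representatives
  by_cases hn : Nonempty W
  · have hch : ∀ c, ∃ w, (B c).Nonempty → w ∈ B c := by
      intro c
      by_cases h : (B c).Nonempty
      · obtain ⟨w, hw⟩ := h
        exact ⟨w, fun _ => hw⟩
      · obtain ⟨w⟩ := hn
        exact ⟨w, fun h' => absurd h' h⟩
    choose g hg using hch
    have hinj : Set.InjOn g {c | c < q ∧ (B c).Nonempty} := by
      intro c hc d hd' hcd
      by_contra hne
      have h1 := hd c hc.1 d hd'.1 hne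
      rw [Set.disjoint_left] at h1
      exact h1 (hg c hc.2) (hcd ▸ hg d hd'.2)
    have h1 := hinj.ncard_image
    have h2 : Disjoint {w | w ∈ A ∧ ∀ c < q, w ∉ B c} (g '' {c | c < q ∧ (B c).Nonempty}) := by
      rw [Set.disjoint_left]
      rintro w hw ⟨c, hc, rfl⟩
      exact hw.2 c hc.1 (hg c hc.2)
    rw [← h1, ← Set.ncard_union_eq h2 (Set.toFinite _) (hfin.image g)]
    apply Set.ncard_le_ncard _ (Set.toFinite _)
    rintro w (hw | ⟨c, hc, rfl⟩)
    · exact hw.1
    · exact hB c hc.1 (hg c hc.2)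
  · have h1 : {c | c < q ∧ (B c).Nonempty} = ∅ := by
      ext c
      constructor
      · rintro ⟨_, ⟨w, _⟩⟩
        exact absurd ⟨w⟩ hn
      · intro h; exact absurd h (Set.notMem_empty c)
    rw [h1, Set.ncard_empty, add_zero]
    exact Set.ncard_le_ncard (fun w hw => hw.1) (Set.toFinite _)

theorem left_le' {W : Type} [Finite W] (A : Set W) (B : ℕ → Set W) (k q err : ℕ)
    (hB : ∀ c < q, B c ⊆ A) (hd : ∀ c < q, ∀ d < q, c ≠ d → Disjoint (B c) (B d))
    (hA : A.ncard = k) (hq : q ≤ k) (he : {c | c < q ∧ ¬ (B c).Nonempty}.ncard ≤ err) :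
    {w | w ∈ A ∧ ∀ c < q, w ∉ B c}.ncard ≤ k - q + err := by
  have h1 := left_le A B q hB hd
  have h2 : {c | c < q ∧ (B c).Nonempty}.ncard + {c | c < q ∧ ¬ (B c).Nonempty}.ncard = q := by
    have hdj : Disjoint {c | c < q ∧ (B c).Nonempty} {c | c < q ∧ ¬ (B c).Nonempty} := by
      rw [Set.disjoint_left]
      intro c hc hc'
      exact hc'.2 hc.2
    rw [← Set.ncard_union_eq hdj ((Set.finite_lt_nat q).subset (fun c hc => hc.1))
      ((Set.finite_lt_nat q).subset (fun c hc => hc.1))]
    have : {c | c < q ∧ (B c).Nonempty} ∪ {c | c < q ∧ ¬ (B c).Nonempty}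
        = ((Finset.range q : Finset ℕ) : Set ℕ) := by
      ext c
      rw [Finset.mem_coe, Finset.mem_range]
      constructor
      · rintro (h | h)
        · exact h.1
        · exact h.1
      · intro h
        by_cases h' : (B c).Nonempty
        · exact Or.inl ⟨h, h'⟩
        · exact Or.inr ⟨h, h'⟩
    rw [this, Set.ncard_coe_finset, Finset.card_range]
  omega

/-- MODULE REC -/
theorem rec (hO : OriStmt) (hL : LfoStmt) : RecStmt := by
  classical
  intro k q err hR hqk n hcov V _ G hG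
  obtain ⟨W, hW, H, f, hH, hf⟩ := Pool.Agent.Helper75_Viz.exists_regular (2 * k) (2 * k) V G hG
    (fun v => by omega)
  suffices h : CoveredBy H (q + n) by
    rw [← hf]; exact h.comap f
  obtain ⟨E, hE, hEH, hEa⟩ := hO W H k hH
  obtain ⟨K, hK1, hK2, hK3⟩ := hR W E hE
  let G' : SimpleGraph W :=
    { Adj := fun u v => H.Adj u v ∧ ∀ c < q, (u, v) ∉ K c ∧ (v, u) ∉ K c
      symm := ⟨fun u v h => ⟨h.1.symm, fun c hc => ⟨(h.2 c hc).2, (h.2 c hc).1⟩⟩⟩
      loopless := ⟨fun u h => h.1.ne rfl⟩ }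
  have hG' : ∀ v, (G'.neighborSet v).ncard ≤ 2 * (k - q + err) := by
    intro v
    have h1 : {w | w ∈ out E v ∧ ∀ c < q, w ∉ out (K c) v}.ncard ≤ k - q + err := by
      apply left_le' (out E v) (fun c => out (K c) v) k q err _ _ (hE v).1 hqk
      · refine le_trans (le_of_eq ?_) (hK3 v).1
        congr 1
      · intro c hc w hw
        exact (hK1 c hc).1 hw
      · intro c hc d hd hcd
        have := hK2 c hc d hd hcd
        rw [Set.disjoint_left] at this ⊢
        intro w hw hw'
        exact this hw hw'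
    have h2 : {w | w ∈ inn E v ∧ ∀ c < q, w ∉ inn (K c) v}.ncard ≤ k - q + err := by
      apply left_le' (inn E v) (fun c => inn (K c) v) k q err _ _ (hE v).2 hqk
      · refine le_trans (le_of_eq ?_) (hK3 v).2
        congr 1
      · intro c hc w hw
        exact (hK1 c hc).1 hw
      · intro c hc d hd hcd
        have := hK2 c hc d hd hcd
        rw [Set.disjoint_left] at this ⊢
        intro w hw hw'
        exact this hw hw'
    have h3 : G'.neighborSet v ⊆ {w | w ∈ out E v ∧ ∀ c < q, w ∉ out (K c) v} ∪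
        {w | w ∈ inn E v ∧ ∀ c < q, w ∉ inn (K c) v} := by
      intro w hw
      obtain ⟨hw1, hw2⟩ := hw
      rcases (hEH v w).1 hw1 with h | h
      · exact Or.inl ⟨h, fun c hc => (hw2 c hc).1⟩
      · exact Or.inr ⟨h, fun c hc => (hw2 c hc).2⟩
    have h4 := Set.ncard_le_ncard h3 (Set.toFinite _)
    have h5 := Set.ncard_union_le {w | w ∈ out E v ∧ ∀ c < q, w ∉ out (K c) v}
        {w | w ∈ inn E v ∧ ∀ c < q, w ∉ inn (K c) v}
    omega
  obtain ⟨F, hF, hFG⟩ := hcov W G' hG'
  refine ⟨Fin.append (fun c : Fin q => SimpleGraph.fromRel (fun u v => (u, v) ∈ K c)) F, ?_, ?_⟩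
  · intro i
    refine Fin.addCases (fun i => ?_) (fun i => ?_) i
    · rw [Fin.append_left]
      exact hL W (K i) (hK1 i i.2).2.1 (hK1 i i.2).2.2
    · rw [Fin.append_right]
      exact hF i
  · ext u v
    rw [iSup_adj]
    constructor
    · rintro ⟨i, hi⟩
      revert hi
      refine Fin.addCases (fun i => ?_) (fun i => ?_) i
      · rw [Fin.append_left]
        rintro ⟨_, h | h⟩
        · exact (hEH u v).2 (Or.inl ((hK1 i i.2).1 h))
        · exact (hEH u v).2 (Or.inr ((hK1 i i.2).1 h))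
      · rw [Fin.append_right]
        intro hi
        have : G'.Adj u v := by
          rw [← hFG, iSup_adj]
          exact ⟨i, hi⟩
        exact this.1
    · intro huv
      by_cases h : ∃ c < q, (u, v) ∈ K c ∨ (v, u) ∈ K c
      · obtain ⟨c, hc, h⟩ := h
        refine ⟨Fin.castAdd n ⟨c, hc⟩, ?_⟩
        rw [Fin.append_left]
        exact ⟨huv.ne, h⟩
      · push Not at h
        have : G'.Adj u v := ⟨huv, h⟩
        rw [← hFG, iSup_adj] at this
        obtain ⟨i, hi⟩ := this
        exact ⟨Fin.natAdd q i, by rw [Fin.append_right]; exact hi⟩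

end Pool.Agent.LAX.H81
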