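import Mathlib

/-!
# The extremal closure lemma (self-contained form)

Relations `M : Finset (α × β)` which are partial injections, a partial injection `T : β → α → Prop`
and the composed relation `y -> T -> M -> y'` on `β`.
-/

namespace Pool.Agent.H81LAX

open Finset Classical

variable {α β : Type*}

/-- walks of a given length in a relation -/
def Wk {V : Type*} (F : V → V → Prop) : ℕ → V → V → Prop
  | 0, v, w => v = w
  | n + 1, v, w => ∃ u, F v u ∧ Wk F n u w

theorem Wk.add {V : Type*} {F : V → V → Prop} {m n : ℕ} {u v w : V} (h : Wk F m u v)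
    (h' : Wk F n v w) : Wk F (m + n) u w := by
  induction m generalizing u with
  | zero =>
      have : u = v := h
      subst this
      simpa using h'
  | succ m ih =>
      obtain ⟨z, hz, hzv⟩ := h
      have := ih hzv
      rw [show m + 1 + n = (m + n) + 1 by omega]
      exact ⟨z, hz, this⟩

theorem Wk.snoc {V : Type*} {F : V → V → Prop} {m : ℕ} {u v w : V} (h : Wk F m u v)
    (h' : F v w) : Wk F (m + 1) u w := h.add ⟨w, h', rfl⟩

/-- no closed walk of length `1 ≤ j < b` -/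
def CW {V : Type*} (F : V → V → Prop) (b : ℕ) : Prop :=
  ∀ j, 1 ≤ j → j < b → ∀ v, ¬ Wk F j v v

/-- partial injection -/
def PIr (R : α → β → Prop) : Prop :=
  (∀ x y y', R x y → R x y' → y = y') ∧ (∀ x x' y, R x y → R x' y → x = x')

/-- the composed relation -/
def phi (T : β → α → Prop) (M : Finset (α × β)) (y y' : β) : Prop :=
  ∃ x, T y x ∧ (x, y') ∈ M

/-- the relation of a finite set of pairs -/
def rel (M : Finset (α × β)) (x : α) (y : β) : Prop := (x, y) ∈ M

/-- admissible sets -/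
def Adm (H : Finset (α × β)) (T : β → α → Prop) (b : ℕ) (M : Finset (α × β)) : Prop :=
  M ⊆ H ∧ PIr (rel M) ∧ CW (phi T M) b

/-- the switched matching -/
def sw [DecidableEq α] [DecidableEq β] (M : Finset (α × β)) (x : α) (y : β) : Finset (α × β) :=
  insert (x, y) (M.filter (fun a => a.2 ≠ y))

theorem mem_sw (M : Finset (α × β)) (x : α) (y : β) (u : α) (v : β) :
    (u, v) ∈ sw M x y ↔ (u = x ∧ v = y) ∨ ((u, v) ∈ M ∧ v ≠ y) := by
  simp [sw]

/-- backward orbit of `x` -/
noncomputable def Bk [Fintype β] (T : β → α → Prop) (M : Finset (α × β)) (x : α) :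
    ℕ → Finset β
  | 0 => univ.filter (fun z => T z x)
  | n + 1 => univ.filter (fun y => ∃ z ∈ Bk T M x n, phi T M y z)

theorem card_Bk [Fintype β] {T : β → α → Prop} (hT : PIr T) {M : Finset (α × β)}
    (hM : PIr (rel M)) (x : α) (n : ℕ) : (Bk T M x n).card ≤ 1 := by
  induction n with
  | zero =>
      rw [Finset.card_le_one]
      intro a ha b hb
      simp only [Bk, mem_filter, mem_univ, true_and] at ha hb
      exact hT.2 _ _ _ ha hb
  | succ n ih =>
      rw [Finset.card_le_one] at ih ⊢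
      intro a ha b hb
      simp only [Bk, mem_filter, mem_univ, true_and] at ha hb
      obtain ⟨z, hz, w, haw, hwz⟩ := ha
      obtain ⟨z', hz', w', hbw, hwz'⟩ := hb
      have h1 : z = z' := ih z hz z' hz'
      subst h1
      have h2 : w = w' := hM.2 _ _ _ hwz hwz'
      subst h2
      exact hT.2 _ _ _ haw hbw

theorem mem_Bk_of_walk [Fintype β] {T : β → α → Prop} {M : Finset (α × β)} {x : α} {n : ℕ}
    {y z : β} (h : Wk (phi T M) n y z) (hz : T z x) : y ∈ Bk T M x n := by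
  induction n generalizing y with
  | zero =>
      have : y = z := h
      subst this
      simpa [Bk] using hz
  | succ n ih =>
      obtain ⟨u, hu, huz⟩ := h
      simp only [Bk, mem_filter, mem_univ, true_and]
      exact ⟨u, ih huz, hu⟩

/-- a walk of the switched relation avoids the new arc or passes through it -/
theorem walk_sw {T : β → α → Prop} {M : Finset (α × β)} {x : α} {y : β} {n : ℕ} {v w : β}
    (h : Wk (phi T (sw M x y)) n v w) :
    Wk (phi T M) n v w ∨ ∃ i k z, i + k + 1 = n ∧ Wk (phi T (sw M x y)) i v z ∧ T z x ∧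
      Wk (phi T (sw M x y)) k y w := by
  induction n generalizing v with
  | zero => exact Or.inl h
  | succ n ih =>
      obtain ⟨u, hu, huw⟩ := h
      obtain ⟨t, hvt, htu⟩ := hu
      rcases (mem_sw M x y t u).1 htu with ⟨h1, h2⟩ | ⟨h1, h2⟩
      · subst h1; subst h2
        refine Or.inr ⟨0, n, v, by omega, rfl, hvt, huw⟩
      · rcases ih huw with h3 | ⟨i, k, z, hik, h3, h4, h5⟩
        · exact Or.inl ⟨u, ⟨t, hvt, h1⟩, h3⟩
        · refine Or.inr ⟨i + 1, k, z, by omega, ⟨u, ⟨t, hvt, htu⟩, h3⟩, h4, h5⟩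

theorem adm_sw [Fintype β] {H : Finset (α × β)} {T : β → α → Prop} (hT : PIr T) {b : ℕ}
    {M : Finset (α × β)} (hM : Adm H T b M) {x : α} {y : β} (hxy : (x, y) ∈ H)
    (hx : ∀ v, (x, v) ∉ M) (hy : ∀ n, n + 2 ≤ b → y ∉ Bk T M x n) : Adm H T b (sw M x y) := by
  obtain ⟨hMH, hPI, hCW⟩ := hM
  refine ⟨?_, ⟨?_, ?_⟩, ?_⟩
  · intro a ha
    obtain ⟨u, v⟩ := a
    rcases (mem_sw M x y u v).1 ha with ⟨h1, h2⟩ | ⟨h1, h2⟩
    · subst h1; subst h2; exact hxy
    · exact hMH h1
  · intro u v v' h1 h2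
    rcases (mem_sw M x y u v).1 h1 with ⟨h3, h4⟩ | ⟨h3, h4⟩
    · rcases (mem_sw M x y u v').1 h2 with ⟨h5, h6⟩ | ⟨h5, h6⟩
      · rw [h4, h6]
      · subst h3; exact absurd h5 (hx v')
    · rcases (mem_sw M x y u v').1 h2 with ⟨h5, h6⟩ | ⟨h5, h6⟩
      · subst h5; exact absurd h3 (hx v)
      · exact hPI.1 _ _ _ h3 h5
  · intro u u' v h1 h2
    rcases (mem_sw M x y u v).1 h1 with ⟨h3, h4⟩ | ⟨h3, h4⟩
    · rcases (mem_sw M x y u' v).1 h2 with ⟨h5, h6⟩ | ⟨h5, h6⟩
      · rw [h3, h5]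
      · exact absurd h4 h6
    · rcases (mem_sw M x y u' v).1 h2 with ⟨h5, h6⟩ | ⟨h5, h6⟩
      · exact absurd h6 h4
      · exact hPI.2 _ _ _ h3 h5
  · intro j hj1 hjb v hv
    rcases walk_sw hv with h | ⟨i, k, z, hik, h1, h2, h3⟩
    · exact hCW j hj1 hjb v h
    · have hwk : Wk (phi T (sw M x y)) (k + i) y z := h3.add h1
      have hex : ∃ n, Wk (phi T (sw M x y)) n y z := ⟨_, hwk⟩
      classical
      have hmin : ∀ m, m < Nat.find hex → ¬ Wk (phi T (sw M x y)) m y z :=
        fun m hm => Nat.find_min hex hm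
      have hspec := Nat.find_spec hex
      have hle : Nat.find hex ≤ k + i := Nat.find_min' hex hwk
      rcases walk_sw hspec with h | ⟨i', k', z', hik', h1', h2', h3'⟩
      · exact hy (Nat.find hex) (by omega) (mem_Bk_of_walk h h2)
      · have : z' = z := hT.2 _ _ _ h2' h2
        subst this
        exact hmin i' (by omega) h1'

/-- number of violations -/
noncomputable def viol (A : Finset α) (B : Finset β) (M : Finset (α × β)) : ℕ :=
  (A.filter (fun x => ∀ y, (x, y) ∉ M)).card + (B.filter (fun y => ∀ x, (x, y) ∉ M)).card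

/-- reachable pairs -/
inductive Reach (H : Finset (α × β)) (T : β → α → Prop) (b : ℕ) (M0 : Finset (α × β)) (x0 : α) :
    Finset (α × β) → α → Prop
  | base : Reach H T b M0 x0 M0 x0
  | step {M : Finset (α × β)} {x : α} {y : β} {x' : α} (h : Reach H T b M0 x0 M x)
      (hxy : (x, y) ∈ H) (hy : (x', y) ∈ M) (ha : Adm H T b (sw M x y)) :
      Reach H T b M0 x0 (sw M x y) x'

structure Inv (X : Finset α) (H : Finset (α × β)) (T : β → α → Prop) (b : ℕ)
    (M0 : Finset (α × β)) (x0 : α) (M : Finset (α × β)) (x : α) : Prop where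
  adm : Adm H T b M
  ran : ∀ y, (∃ u, (u, y) ∈ M) ↔ (∃ u, (u, y) ∈ M0)
  dom : ∀ u, (∃ y, (u, y) ∈ M) ↔ (u ≠ x ∧ (u = x0 ∨ ∃ y, (u, y) ∈ M0))
  memX : x ∈ X
  xd : x = x0 ∨ ∃ y, (x, y) ∈ M0

theorem reach_inv {X : Finset α} {Y : Finset β} {H : Finset (α × β)} (hH : H ⊆ X ×ˢ Y)
    {T : β → α → Prop} {b : ℕ} {M0 : Finset (α × β)} {x0 : α} (hx0X : x0 ∈ X)
    (hM0 : Adm H T b M0) (hx0 : ∀ y, (x0, y) ∉ M0) {M : Finset (α × β)} {x : α}
    (h : Reach H T b M0 x0 M x) : Inv X H T b M0 x0 M x := by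
  induction h with
  | base =>
      refine ⟨hM0, fun y => Iff.rfl, ?_, hx0X, Or.inl rfl⟩
      intro u
      constructor
      · rintro ⟨y, hy⟩
        refine ⟨?_, Or.inr ⟨y, hy⟩⟩
        rintro rfl
        exact hx0 y hy
      · rintro ⟨h1, h2 | h2⟩
        · exact absurd h2 h1
        · exact h2
  | @step M x y x' h hxy hy ha ih =>
      refine ⟨ha, ?_, ?_, ?_, ((ih.dom x').1 ⟨y, hy⟩).2⟩
      · intro y'
        rw [← ih.ran]
        constructor
        · rintro ⟨u, hu⟩
          rcases (mem_sw M x y u y').1 hu with ⟨h1, h2⟩ | ⟨h1, h2⟩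
          · subst h2; exact ⟨x', hy⟩
          · exact ⟨u, h1⟩
        · rintro ⟨u, hu⟩
          by_cases hyy : y' = y
          · exact ⟨x, (mem_sw M x y x y').2 (Or.inl ⟨rfl, hyy⟩)⟩
          · exact ⟨u, (mem_sw M x y u y').2 (Or.inr ⟨hu, hyy⟩)⟩
      · intro u
        have hxM : ∀ v, (x, v) ∉ M := by
          intro v hv
          exact ((ih.dom x).1 ⟨v, hv⟩).1 rfl
        have hxx : x' ≠ x := by
          rintro rfl
          exact hxM y hy
        have hx'd := (ih.dom x').1 ⟨y, hy⟩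
        have hxd := ih.xd
        constructor
        · rintro ⟨v, hv⟩
          rcases (mem_sw M x y u v).1 hv with ⟨h1, h2⟩ | ⟨h1, h2⟩
          · subst h1
            exact ⟨fun h => hxx h.symm, hxd⟩
          · refine ⟨?_, ((ih.dom u).1 ⟨v, h1⟩).2⟩
            rintro rfl
            exact h2 (ih.adm.2.1.1 _ _ _ h1 hy)
        · rintro ⟨h1, h2⟩
          by_cases hux : u = x
          · exact ⟨y, (mem_sw M x y u y).2 (Or.inl ⟨hux, rfl⟩)⟩
          · obtain ⟨v, hv⟩ := (ih.dom u).2 ⟨hux, h2⟩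
            refine ⟨v, (mem_sw M x y u v).2 (Or.inr ⟨hv, ?_⟩)⟩
            rintro rfl
            exact h1 (ih.adm.2.1.2 _ _ _ hv hy)
      · have := hH (ih.adm.1 hy)
        simp only [mem_product] at this
        exact this.1



theorem viol_le_of {A : Finset α} {B : Finset β} {M M' : Finset (α × β)}
    (h1 : ∀ u ∈ A, (∀ v, (u, v) ∉ M') → ∀ v, (u, v) ∉ M)
    (h2 : ∀ v ∈ B, (∀ u, (u, v) ∉ M') → ∀ u, (u, v) ∉ M) {x : α} (hx : x ∈ A)
    (hxM : ∀ v, (x, v) ∉ M) (hxM' : ∃ v, (x, v) ∈ M') : viol A B M' < viol A B M := by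
  unfold viol
  have e1 : (A.filter (fun x => ∀ y, (x, y) ∉ M')).card <
      (A.filter (fun x => ∀ y, (x, y) ∉ M)).card := by
    apply Finset.card_lt_card
    rw [Finset.ssubset_iff_of_subset]
    · refine ⟨x, ?_, ?_⟩
      · simp only [mem_filter]; exact ⟨hx, hxM⟩
      · simp only [mem_filter]
        rintro ⟨_, h⟩
        obtain ⟨v, hv⟩ := hxM'
        exact h v hv
    · intro u hu
      simp only [mem_filter] at hu ⊢
      exact ⟨hu.1, h1 u hu.1 hu.2⟩
  have e2 : (B.filter (fun y => ∀ x, (x, y) ∉ M')).card ≤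
      (B.filter (fun y => ∀ x, (x, y) ∉ M)).card := by
    apply Finset.card_le_card
    intro v hv
    simp only [mem_filter] at hv ⊢
    exact ⟨hv.1, h2 v hv.1 hv.2⟩
  omega

/-- one-sided improvement -/
theorem improve [Fintype α] [Fintype β] {X X' : Finset α} {Y Y' : Finset β}
    {H : Finset (α × β)} (hH : H ⊆ X ×ˢ Y) {T : β → α → Prop} (hT : PIr T)
    {b D D' z : ℕ} (hb : 1 ≤ b) (hD : b ≤ D) (hDD : D' + b ≤ D + z + 1)
    (hX : ∀ x ∈ X, D ≤ (univ.filter (fun y => (x, y) ∈ H)).card)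
    (hY : ∀ y ∈ Y, (univ.filter (fun x => (x, y) ∈ H)).card ≤ D' ∧
      z ≤ (X'.filter (fun x => (x, y) ∈ H)).card)
    {M0 : Finset (α × β)} (hM0 : Adm H T b M0) {x0 : α} (hx0X : x0 ∈ X) (hx0X' : x0 ∉ X')
    (hx0 : ∀ y, (x0, y) ∉ M0) :
    ∃ M, Adm H T b M ∧ viol (X \ X') (Y \ Y') M < viol (X \ X') (Y \ Y') M0 := by
  by_contra hcon
  push Not at hcon
  have hinv : ∀ {M x}, Reach H T b M0 x0 M x → Inv X H T b M0 x0 M x :=
    fun h => reach_inv hH hx0X hM0 hx0 h
  -- (1)
  have hA1 : ∀ {M x}, Reach H T b M0 x0 M x → x ∉ X' := by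
    intro M x h hxX'
    have hi := hinv h
    have := hcon M hi.adm
    refine absurd this (not_le.2 ?_)
    refine viol_le_of (x := x0) ?_ ?_ (by simp [hx0X, hx0X']) hx0 ?_
    · intro u hu h1 v hv
      simp only [mem_sdiff] at hu
      have : ¬ ∃ y, (u, y) ∈ M := by push Not; exact h1
      rw [hi.dom] at this
      apply this
      refine ⟨?_, Or.inr ⟨v, hv⟩⟩
      rintro rfl
      exact hu.2 hxX'
    · intro v _ h1 u hu
      obtain ⟨u', hu'⟩ := (hi.ran v).2 ⟨u, hu⟩
      exact h1 u' hu'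
    · refine (hi.dom x0).2 ⟨?_, Or.inl rfl⟩
      rintro rfl
      exact hx0X' hxX'
  have hxM : ∀ {M x}, Reach H T b M0 x0 M x → ∀ v, (x, v) ∉ M := by
    intro M x h v hv
    exact (((hinv h).dom x).1 ⟨v, hv⟩).1 rfl
  -- (2)
  have h2 : ∀ {M x}, Reach H T b M0 x0 M x → ∀ y, (x, y) ∈ H → (∀ n, n + 2 ≤ b → y ∉ Bk T M x n) →
      ∃ x', (x', y) ∈ M ∧ Reach H T b M0 x0 (sw M x y) x' := by
    intro M x h y hxy hy
    have hi := hinv h
    have hadm : Adm H T b (sw M x y) := adm_sw hT hi.adm hxy (hxM h) hy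
    by_cases hyM : ∃ x', (x', y) ∈ M
    · obtain ⟨x', hx'⟩ := hyM
      exact ⟨x', hx', Reach.step h hxy hx' hadm⟩
    · exfalso
      push Not at hyM
      have := hcon _ hadm
      refine absurd this (not_le.2 ?_)
      have hmono : ∀ u v, (u, v) ∈ M → (u, v) ∈ sw M x y := by
        intro u v huv
        refine (mem_sw M x y u v).2 (Or.inr ⟨huv, ?_⟩)
        rintro rfl
        exact hyM u huv
      refine viol_le_of (x := x0) ?_ ?_ (by simp [hx0X, hx0X']) hx0 ?_
      · intro u _ h1 v hv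
        by_cases hux : u = x
        · subst hux
          exact h1 y ((mem_sw M u y u y).2 (Or.inl ⟨rfl, rfl⟩))
        · obtain ⟨w, hw⟩ := (hi.dom u).2 ⟨hux, Or.inr ⟨v, hv⟩⟩
          exact h1 w (hmono _ _ hw)
      · intro v _ h1 u hu
        obtain ⟨u', hu'⟩ := (hi.ran v).2 ⟨u, hu⟩
        exact h1 u' (hmono _ _ hu')
      · by_cases hux : x0 = x
        · exact ⟨y, (mem_sw M x y x0 y).2 (Or.inl ⟨hux, rfl⟩)⟩
        · obtain ⟨w, hw⟩ := (hi.dom x0).2 ⟨hux, Or.inl rfl⟩
          exact ⟨w, hmono _ _ hw⟩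
  -- (3)
  set A : Finset α := univ.filter (fun x => ∃ M, Reach H T b M0 x0 M x) with hAdef
  have hmemA : ∀ {x}, x ∈ A ↔ ∃ M, Reach H T b M0 x0 M x := by
    intro x; simp [hAdef]
  have hAM : ∀ {M x}, Reach H T b M0 x0 M x → ∀ u v, u ∉ A → ((u, v) ∈ M ↔ (u, v) ∈ M0) := by
    intro M x h
    induction h with
    | base => intro u v _; exact Iff.rfl
    | @step M x y x' h hxy hy ha ih =>
        intro u v hu
        rw [mem_sw, ← ih u v hu]
        constructor
        · rintro (⟨h1, _⟩ | ⟨h1, _⟩)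
          · subst h1
            exact absurd (hmemA.2 ⟨M, h⟩) hu
          · exact h1
        · intro h1
          refine Or.inr ⟨h1, ?_⟩
          rintro rfl
          have hux' : u = x' := (hinv h).adm.2.1.2 _ _ _ h1 hy
          subst hux'
          exact hu (hmemA.2 ⟨_, Reach.step h hxy hy ha⟩)
  set S : Finset β := univ.filter (fun y => ∃ u ∈ A, (u, y) ∈ M0) with hSdef
  have hSA : S.card + 1 ≤ A.card := by
    have hx0A : x0 ∈ A := hmemA.2 ⟨M0, Reach.base⟩
    have hS : S = ((M0.filter (fun a => a.1 ∈ A)).image Prod.snd) := by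
      ext y
      simp only [hSdef, mem_filter, mem_univ, true_and, mem_image, Prod.exists, exists_eq_right]
      constructor
      · rintro ⟨u, h1, h2⟩; exact ⟨u, h2, h1⟩
      · rintro ⟨u, h2, h1⟩; exact ⟨u, h1, h2⟩
    have h3 : ((M0.filter (fun a => a.1 ∈ A)).image Prod.snd).card ≤
        (M0.filter (fun a => a.1 ∈ A)).card := Finset.card_image_le
    have h4 : (M0.filter (fun a => a.1 ∈ A)).card =
        ((M0.filter (fun a => a.1 ∈ A)).image Prod.fst).card := by
      rw [Finset.card_image_of_injOn]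
      intro p hp q hq hpq
      obtain ⟨p1, p2⟩ := p
      obtain ⟨q1, q2⟩ := q
      simp only [coe_filter, Set.mem_ofPred_eq] at hp hq hpq
      subst hpq
      rw [hM0.2.1.1 _ _ _ hp.1 hq.1]
    have h5 : ((M0.filter (fun a => a.1 ∈ A)).image Prod.fst) ⊆ A.erase x0 := by
      intro u hu
      simp only [mem_image, mem_filter, Prod.exists, exists_and_right, exists_eq_right] at hu
      obtain ⟨⟨v, hv⟩, hv'⟩ := hu
      rw [mem_erase]
      refine ⟨?_, hv'⟩
      rintro rfl
      exact hx0 v hv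
    have h6 := Finset.card_le_card h5
    rw [Finset.card_erase_of_mem hx0A] at h6
    have h7 : 1 ≤ A.card := Finset.card_pos.2 ⟨x0, hx0A⟩
    rw [hS]
    omega
  have hAS : ∀ x ∈ A, D + 1 - b ≤ (S.filter (fun y => (x, y) ∈ H)).card := by
    intro x hx
    obtain ⟨M, hM⟩ := hmemA.1 hx
    have hi := hinv hM
    -- the out-neighbours outside the backward orbit
    have hsub : (univ.filter (fun y => (x, y) ∈ H)) ⊆
        (S.filter (fun y => (x, y) ∈ H)) ∪ ((Finset.range (b - 1)).biUnion (fun n => Bk T M x n)) := by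
      intro y hy
      simp only [mem_filter, mem_univ, true_and] at hy
      rw [mem_union]
      by_cases hbk : ∃ n, n + 2 ≤ b ∧ y ∈ Bk T M x n
      · obtain ⟨n, hn, hyn⟩ := hbk
        refine Or.inr ?_
        rw [mem_biUnion]
        exact ⟨n, by simp; omega, hyn⟩
      · push Not at hbk
        obtain ⟨x', hx', hr⟩ := h2 hM y hy hbk
        refine Or.inl ?_
        simp only [mem_filter, hSdef, mem_univ, true_and]
        refine ⟨?_, hy⟩
        have hx'A : x' ∈ A := hmemA.2 ⟨_, hr⟩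
        obtain ⟨u, hu⟩ := (hi.ran y).1 ⟨x', hx'⟩
        refine ⟨u, ?_, hu⟩
        by_contra huA
        have h3 : (u, y) ∈ M := (hAM hM u y huA).2 hu
        have h4 : u = x' := hi.adm.2.1.2 _ _ _ h3 hx'
        subst h4
        exact huA hx'A
    have h3 := Finset.card_le_card hsub
    have h4 := Finset.card_union_le (S.filter (fun y => (x, y) ∈ H))
      ((Finset.range (b - 1)).biUnion (fun n => Bk T M x n))
    have h5 : ((Finset.range (b - 1)).biUnion (fun n => Bk T M x n)).card ≤ (b - 1) := by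
      calc ((Finset.range (b - 1)).biUnion (fun n => Bk T M x n)).card
          ≤ ∑ n ∈ Finset.range (b - 1), (Bk T M x n).card := Finset.card_biUnion_le
        _ ≤ ∑ n ∈ Finset.range (b - 1), 1 :=
            Finset.sum_le_sum (fun n _ => card_Bk hT hi.adm.2.1 x n)
        _ = b - 1 := by simp
    have h6 := hX x hi.memX
    omega
  have hSA2 : ∀ y ∈ S, (A.filter (fun x => (x, y) ∈ H)).card ≤ D + 1 - b := by
    intro y hy
    simp only [hSdef, mem_filter, mem_univ, true_and] at hy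
    obtain ⟨u, _, huy⟩ := hy
    have hyY : y ∈ Y := by
      have := hH (hM0.1 huy)
      simp only [mem_product] at this
      exact this.2
    obtain ⟨h3, h4⟩ := hY y hyY
    have h5 : Disjoint (A.filter (fun x => (x, y) ∈ H)) (X'.filter (fun x => (x, y) ∈ H)) := by
      rw [Finset.disjoint_left]
      intro x hx hx'
      simp only [mem_filter] at hx hx'
      obtain ⟨M, hM⟩ := hmemA.1 hx.1
      exact hA1 hM hx'.1
    have h6 : (A.filter (fun x => (x, y) ∈ H)) ∪ (X'.filter (fun x => (x, y) ∈ H)) ⊆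
        univ.filter (fun x => (x, y) ∈ H) := by
      intro x hx
      simp only [mem_union, mem_filter, mem_univ, true_and] at hx ⊢
      rcases hx with hx | hx
      · exact hx.2
      · exact hx.2
    have h7 := Finset.card_le_card h6
    rw [Finset.card_union_of_disjoint h5] at h7
    omega
  -- (4)
  have hfin := Finset.card_mul_le_card_mul (s := A) (t := S) (fun x y => (x, y) ∈ H)
    (m := D + 1 - b) (n := D + 1 - b) (fun x hx => hAS x hx) (fun y hy => hSA2 y hy)
  have : 1 ≤ D + 1 - b := by omega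
  nlinarith



/-- the transposed set -/
noncomputable def tr (M : Finset (α × β)) : Finset (β × α) := M.image Prod.swap

theorem mem_tr (M : Finset (α × β)) (x : α) (y : β) : (y, x) ∈ tr M ↔ (x, y) ∈ M := by
  simp [tr]

theorem tr_tr (M : Finset (α × β)) : tr (tr M) = M := by
  ext ⟨x, y⟩
  rw [mem_tr, mem_tr]

theorem walk_tr {T : β → α → Prop} {M : Finset (α × β)} {n : ℕ} {x x' : α}
    (h : Wk (phi (fun a b => T b a) (tr M)) (n + 1) x x') :
    ∃ y y', T y x ∧ (x', y') ∈ M ∧ Wk (phi T M) n y' y := by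
  induction n generalizing x with
  | zero =>
      obtain ⟨u, ⟨y, h1, h2⟩, h3⟩ := h
      have h4 : u = x' := h3
      subst h4
      rw [mem_tr] at h2
      exact ⟨y, y, h1, h2, rfl⟩
  | succ n ih =>
      obtain ⟨u, ⟨y, h1, h2⟩, h3⟩ := h
      obtain ⟨y1, y', h4, h5, h6⟩ := ih h3
      rw [mem_tr] at h2
      exact ⟨y, y', h1, h5, h6.snoc ⟨u, h4, h2⟩⟩

theorem cw_tr {T : β → α → Prop} {M : Finset (α × β)} {b : ℕ} (h : CW (phi T M) b) :
    CW (phi (fun a b => T b a) (tr M)) b := by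
  intro j hj hjb x hx
  obtain ⟨n, rfl⟩ : ∃ n, j = n + 1 := ⟨j - 1, by omega⟩
  obtain ⟨y, y', h1, h2, h3⟩ := walk_tr hx
  exact h (n + 1) hj hjb y' (h3.snoc ⟨x, h1, h2⟩)

theorem adm_tr {H : Finset (α × β)} {T : β → α → Prop} {b : ℕ} {M : Finset (α × β)}
    (h : Adm H T b M) : Adm (tr H) (fun a b => T b a) b (tr M) := by
  refine ⟨?_, ⟨?_, ?_⟩, cw_tr h.2.2⟩
  · rintro ⟨y, x⟩ hyx
    rw [mem_tr] at hyx ⊢
    exact h.1 hyx
  · intro y x x' h1 h2
    simp only [rel, mem_tr] at h1 h2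
    exact h.2.1.2 _ _ _ h1 h2
  · intro y y' x h1 h2
    simp only [rel, mem_tr] at h1 h2
    exact h.2.1.1 _ _ _ h1 h2

theorem viol_tr (A : Finset α) (B : Finset β) (M : Finset (α × β)) :
    viol B A (tr M) = viol A B M := by
  unfold viol
  simp only [mem_tr]
  omega

/-- **GL**, the extremal closure lemma. -/
theorem gl [Fintype α] [Fintype β] {X X' : Finset α} {Y Y' : Finset β}
    {H : Finset (α × β)} (hH : H ⊆ X ×ˢ Y) {T : β → α → Prop} (hT : PIr T)
    {b D D' z : ℕ} (hb : 1 ≤ b) (hD : b ≤ D) (hDD : D' + b ≤ D + z + 1)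
    (hX : ∀ x ∈ X, D ≤ (univ.filter (fun y => (x, y) ∈ H)).card ∧
      (univ.filter (fun y => (x, y) ∈ H)).card ≤ D' ∧ z ≤ (Y'.filter (fun y => (x, y) ∈ H)).card)
    (hY : ∀ y ∈ Y, D ≤ (univ.filter (fun x => (x, y) ∈ H)).card ∧
      (univ.filter (fun x => (x, y) ∈ H)).card ≤ D' ∧ z ≤ (X'.filter (fun x => (x, y) ∈ H)).card) :
    ∃ M : Finset (α × β), M ⊆ H ∧ PIr (rel M) ∧ CW (phi T M) b ∧
      (∀ x ∈ X, x ∉ X' → ∃ y, (x, y) ∈ M) ∧ (∀ y ∈ Y, y ∉ Y' → ∃ x, (x, y) ∈ M) := by
  have h0 : Adm H T b (∅ : Finset (α × β)) := by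
    refine ⟨by simp, ⟨?_, ?_⟩, ?_⟩
    · intro x y y' h; exact absurd h (by simp [rel])
    · intro x x' y h; exact absurd h (by simp [rel])
    · intro j hj hjb v hv
      obtain ⟨n, rfl⟩ : ∃ n, j = n + 1 := ⟨j - 1, by omega⟩
      obtain ⟨u, ⟨x, _, h2⟩, _⟩ := hv
      simp at h2
  have hex : ∃ n, ∃ M, Adm H T b M ∧ viol (X \ X') (Y \ Y') M = n := ⟨_, ∅, h0, rfl⟩
  obtain ⟨M, hM, hMv⟩ := Nat.find_spec hex
  have hmin : ∀ M', Adm H T b M' → viol (X \ X') (Y \ Y') M ≤ viol (X \ X') (Y \ Y') M' := by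
    intro M' hM'
    rw [hMv]
    exact Nat.find_min' hex ⟨M', hM', rfl⟩
  refine ⟨M, hM.1, hM.2.1, hM.2.2, ?_, ?_⟩
  · intro x hx hx'
    by_contra hcon
    push Not at hcon
    obtain ⟨M', hM', hlt⟩ := improve (X := X) (X' := X') (Y := Y) (Y' := Y') hH hT hb hD hDD
      (fun x hx => (hX x hx).1) (fun y hy => (hY y hy).2) hM hx hx' hcon
    have := hmin M' hM'
    omega
  · intro y hy hy'
    by_contra hcon
    push Not at hcon
    have hH' : tr H ⊆ Y ×ˢ X := by
      rintro ⟨v, u⟩ hvu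
      rw [mem_tr] at hvu
      have := hH hvu
      simp only [mem_product] at this ⊢
      exact ⟨this.2, this.1⟩
    have hT' : PIr (fun a b => T b a) := ⟨fun x y y' h1 h2 => hT.2 _ _ _ h1 h2,
      fun x x' y h1 h2 => hT.1 _ _ _ h1 h2⟩
    obtain ⟨M', hM', hlt⟩ := improve (X := Y) (X' := Y') (Y := X) (Y' := X') hH' hT' hb hD hDD
      (fun y hy => by simpa only [mem_tr] using (hY y hy).1)
      (fun x hx => by simpa only [mem_tr] using (hX x hx).2) (adm_tr hM) hy hy'
      (fun x hx => hcon x ((mem_tr M x y).1 hx))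
    have h1 := hmin (tr M') (by
      have := adm_tr hM'
      rw [tr_tr] at this
      exact this)
    rw [viol_tr] at h1 hlt
    omega

end Pool.Agent.H81LAX
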