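import Pool.Agent.Helper96_LAX.Stmts
import Pool.Agent.Helper81_LAX.GL

/-!
# LAX module GL
-/

set_option autoImplicit false

namespace Pool.Agent.LAX.H81

open Pool.Agent.LAX Pool.Agent.H81LAX

theorem wk_of_seq {V : Type*} {F : V → V → Prop} (j : ℕ) (c : ℕ → V)
    (h : ∀ i < j, F (c i) (c (i + 1))) : Wk F j (c 0) (c j) := by
  induction j with
  | zero => exact rfl
  | succ j ih => exact (ih (fun i hi => h i (by omega))).snoc (h j (by omega))

/-- MODULE GL (no hypotheses) -/
theorem gl : GLStmt := by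
  classical
  intro α β _ _ X X' Y Y' H T b D D' z hb hD hDD hT hH hX hY
  letI := Fintype.ofFinite α
  letI := Fintype.ofFinite β
  have hT' : PIr (fun y x => (y, x) ∈ T) := ⟨fun x y y' h1 h2 => hT.1 x y y' h1 h2,
    fun x x' y h1 h2 => hT.2 x x' y h1 h2⟩
  have hout : ∀ x (A : Set β), (out H x ∩ A).ncard =
      (A.toFinset.filter (fun y => (x, y) ∈ H.toFinset)).card := by
    intro x A
    rw [← Set.ncard_coe_finset]
    congr 1
    ext y
    simp [out, and_comm]
  have hinn : ∀ y (A : Set α), (inn H y ∩ A).ncard =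
      (A.toFinset.filter (fun x => (x, y) ∈ H.toFinset)).card := by
    intro x A
    rw [← Set.ncard_coe_finset]
    congr 1
    ext y
    simp [inn, and_comm]
  have hout0 : ∀ x, (out H x).ncard =
      (Finset.univ.filter (fun y => (x, y) ∈ H.toFinset)).card := by
    intro x
    have := hout x Set.univ
    simpa using this
  have hinn0 : ∀ y, (inn H y).ncard =
      (Finset.univ.filter (fun x => (x, y) ∈ H.toFinset)).card := by
    intro x
    have := hinn x Set.univ
    simpa using this
  obtain ⟨M, h1, h2, h3, h4, h5⟩ := Pool.Agent.H81LAX.gl (X := X.toFinset) (X' := X'.toFinset)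
    (Y := Y.toFinset) (Y' := Y'.toFinset) (H := H.toFinset)
    (by
      rintro ⟨x, y⟩ hxy
      simp only [Set.mem_toFinset, Finset.mem_product] at hxy ⊢
      exact hH _ hxy) hT' hb hD hDD
    (fun x hx => by
      rw [← hout0, ← hout]
      exact hX x (by simpa using hx))
    (fun y hy => by
      rw [← hinn0, ← hinn]
      exact hY y (by simpa using hy))
  refine ⟨(M : Set (α × β)), ?_, ⟨?_, ?_⟩, ?_, ?_, ?_⟩
  · intro p hp
    have := h1 (Finset.mem_coe.1 hp)
    simpa using this
  · intro x y y' ha hb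
    exact h2.1 x y y' (Finset.mem_coe.1 ha) (Finset.mem_coe.1 hb)
  · intro x x' y ha hb
    exact h2.2 x x' y (Finset.mem_coe.1 ha) (Finset.mem_coe.1 hb)
  · intro j c hj hc hc0
    by_contra hcon
    push Not at hcon
    have := wk_of_seq (F := phi (fun y x => (y, x) ∈ T) M) j c (fun i hi => by
      obtain ⟨x, hx1, hx2⟩ := hc i hi
      exact ⟨x, hx1, Finset.mem_coe.1 hx2⟩)
    rw [hc0] at this
    exact h3 j hj hcon _ this
  · intro x hx hx'
    obtain ⟨y, hy⟩ := h4 x (by simpa using hx) (by simpa using hx')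
    exact ⟨y, Finset.mem_coe.2 hy⟩
  · intro y hy hy'
    obtain ⟨x, hx⟩ := h5 y (by simpa using hy) (by simpa using hy')
    exact ⟨x, Finset.mem_coe.2 hx⟩

end Pool.Agent.LAX.H81
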